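import Pool.Agent.TH705.RR.Ang
import Pool.Agent.W131.HM.CapVol

set_option autoImplicit false

/-! # Averages over tubes: the deterministic part (three-fold Hölder inequality) -/

open MeasureTheory Set Metric
open scoped ENNReal NNReal

namespace Pool.Agent.Q184.RK

open Pool.Agent.TH705.RR

/-- three-fold Hölder inequality -/
theorem holder3 {X : Type*} [MeasurableSpace X] (ν : Measure X) {f μ r : X → ℝ≥0∞}
    (hf : AEMeasurable f ν) (hμ : AEMeasurable μ ν) (hr : AEMeasurable r ν) {p : ℝ} (hp : 2 ≤ p)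
    (h1 : ∀ᵐ x ∂ν, μ x ≠ 0 ∧ μ x ≠ ∞ ∧ r x ≠ 0 ∧ r x ≠ ∞) :
    (∫⁻ x, f x ∂ν) ^ p ≤ (∫⁻ x, f x ^ p * (μ x)⁻¹ ∂ν) * (∫⁻ x, μ x * r x ^ (p - 2) ∂ν) *
      (∫⁻ x, (r x)⁻¹ ∂ν) ^ (p - 2) := by
  have hp0 : 0 < p := by linarith
  set F : Fin 3 → X → ℝ≥0∞ := ![fun x => f x ^ p * (μ x)⁻¹, fun x => μ x * r x ^ (p - 2),
    fun x => (r x)⁻¹] with hF
  set P : Fin 3 → ℝ := ![1 / p, 1 / p, (p - 2) / p] with hP
  have h := ENNReal.lintegral_prod_norm_pow_le (μ := ν) (Finset.univ : Finset (Fin 3)) (f := F)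
    (p := P) ?_ ?_ ?_
  · simp only [Fin.prod_univ_three, hF, hP, Matrix.cons_val_zero, Matrix.cons_val_one,
      Matrix.cons_val_two, Matrix.head_cons, Matrix.tail_cons] at h
    have e1 : ∫⁻ x, f x ∂ν = ∫⁻ x, (f x ^ p * (μ x)⁻¹) ^ (1 / p) *
        (μ x * r x ^ (p - 2)) ^ (1 / p) * (r x)⁻¹ ^ ((p - 2) / p) ∂ν := by
      refine lintegral_congr_ae (h1.mono fun x hx => ?_)
      obtain ⟨a1, a2, a3, a4⟩ := hx
      have b1 : r x ^ ((p - 2) / p) ≠ 0 := by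
        intro h0
        rw [ENNReal.rpow_eq_zero_iff] at h0
        rcases h0 with h0 | h0
        · exact a3 h0.1
        · exact a4 h0.1
      have b2 : r x ^ ((p - 2) / p) ≠ ∞ :=
        ENNReal.rpow_ne_top_of_nonneg (div_nonneg (by linarith) hp0.le) a4
      have b3 : μ x ^ (1 / p) ≠ 0 := by
        intro h0
        rw [ENNReal.rpow_eq_zero_iff] at h0
        rcases h0 with h0 | h0
        · exact a1 h0.1
        · exact a2 h0.1
      have b4 : μ x ^ (1 / p) ≠ ∞ := ENNReal.rpow_ne_top_of_nonneg (by positivity) a2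
      simp only
      rw [ENNReal.mul_rpow_of_nonneg _ _ (by positivity), ENNReal.mul_rpow_of_nonneg _ _ (by positivity),
        ← ENNReal.rpow_mul, mul_one_div_cancel hp0.ne', ENNReal.rpow_one, ENNReal.inv_rpow,
        ← ENNReal.rpow_mul, ENNReal.inv_rpow, mul_one_div]
      calc f x = f x * ((μ x ^ (1 / p))⁻¹ * μ x ^ (1 / p)) *
            (r x ^ ((p - 2) / p) * (r x ^ ((p - 2) / p))⁻¹) := by
            rw [ENNReal.inv_mul_cancel b3 b4, ENNReal.mul_inv_cancel b1 b2, mul_one, mul_one]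
        _ = _ := by ring
    rw [e1]
    calc _ ≤ ((∫⁻ x, f x ^ p * (μ x)⁻¹ ∂ν) ^ (1 / p) * (∫⁻ x, μ x * r x ^ (p - 2) ∂ν) ^ (1 / p) *
          (∫⁻ x, (r x)⁻¹ ∂ν) ^ ((p - 2) / p)) ^ p := ENNReal.rpow_le_rpow h hp0.le
      _ = _ := by
          rw [ENNReal.mul_rpow_of_nonneg _ _ hp0.le, ENNReal.mul_rpow_of_nonneg _ _ hp0.le,
            ← ENNReal.rpow_mul, ← ENNReal.rpow_mul, ← ENNReal.rpow_mul,
            one_div_mul_cancel hp0.ne', ENNReal.rpow_one, ENNReal.rpow_one,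
            div_mul_cancel₀ _ hp0.ne']
  · intro i _
    fin_cases i
    · exact (hf.pow_const p).mul hμ.inv
    · exact hμ.mul (hr.pow_const _)
    · exact hr.inv
  · rw [Fin.sum_univ_three]
    simp only [hP, Matrix.cons_val_zero, Matrix.cons_val_one, Matrix.cons_val_two,
      Matrix.head_cons, Matrix.tail_cons]
    field_simp
    ring
  · intro i _
    fin_cases i
    · show 0 ≤ 1 / p
      positivity
    · show 0 ≤ 1 / p
      positivity
    · show 0 ≤ (p - 2) / p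
      exact div_nonneg (by linarith) hp0.le

/-- dyadic scales -/
theorem dyadic1 {t : ℝ} (ht : t ≤ 2) (K : ℕ) :
    ∃ k ≤ K, t ≤ 2 * (1 / 2 : ℝ) ^ k ∧ (k = K ∨ (1 / 2 : ℝ) ^ k < t) := by
  induction K with
  | zero => exact ⟨0, le_rfl, by simpa using ht, Or.inl rfl⟩
  | succ K ih =>
    obtain ⟨k, hk, h1, h2⟩ := ih
    rcases h2 with h2 | h2
    · subst h2
      by_cases h3 : (1 / 2 : ℝ) ^ k < t
      · exact ⟨k, by omega, h1, Or.inr h3⟩
      · refine ⟨k + 1, le_rfl, ?_, Or.inl rfl⟩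
        rw [pow_succ]
        linarith [not_lt.1 h3]
    · exact ⟨k, by omega, h1, Or.inr h2⟩

theorem dyadic {δ : ℝ} (hδ : 0 < δ) (hδ1 : δ < 1) : ∃ K : ℕ, ((K : ℝ) + 1) ≤
    2 * (1 + Real.log (1 / δ)) ∧ ∀ t : ℝ, t ≤ 2 → ∃ k ≤ K, t ≤ 2 * (1 / 2 : ℝ) ^ k ∧
      (max t δ)⁻¹ ≤ 2 * 2 ^ k := by
  set K : ℕ := ⌊Real.logb 2 (1 / δ)⌋₊ with hK
  have h1 : 1 < 1 / δ := by rw [lt_div_iff₀ hδ]; linarith
  have h0 : 0 ≤ Real.logb 2 (1 / δ) := Real.logb_nonneg (by norm_num) h1.le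
  have hlog : 0 < Real.log (1 / δ) := Real.log_pos h1
  have h2 : (K : ℝ) ≤ Real.logb 2 (1 / δ) := Nat.floor_le h0
  have h3 : Real.logb 2 (1 / δ) < K + 1 := Nat.lt_floor_add_one _
  have h4 : Real.logb 2 (1 / δ) ≤ 2 * Real.log (1 / δ) := by
    rw [Real.logb, div_le_iff₀ (Real.log_pos (by norm_num))]
    have := Real.log_two_gt_d9
    nlinarith
  refine ⟨K, by linarith, fun t ht => ?_⟩
  obtain ⟨k, hk, h5, h6⟩ := dyadic1 ht K
  refine ⟨k, hk, h5, ?_⟩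
  rcases h6 with h6 | h6
  · have h7 : 1 / δ < 2 ^ (K + 1) := by
      have := (Real.logb_lt_iff_lt_rpow (by norm_num) (by positivity)).1 h3
      have h8 : (2 : ℝ) ^ ((K : ℝ) + 1) = 2 ^ (K + 1) := by
        rw [← Real.rpow_natCast]; push_cast; rfl
      rwa [h8] at this
    subst h6
    calc (max t δ)⁻¹ ≤ δ⁻¹ := inv_anti₀ hδ (le_max_right _ _)
      _ = 1 / δ := (one_div δ).symm
      _ ≤ 2 ^ (K + 1) := h7.le
      _ = 2 * 2 ^ K := by ring
  · have h8 : (0 : ℝ) < (1 / 2 : ℝ) ^ k := by positivity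
    calc (max t δ)⁻¹ ≤ ((1 / 2 : ℝ) ^ k)⁻¹ := inv_anti₀ h8 (h6.le.trans (le_max_left _ _))
      _ = 2 ^ k := by rw [one_div, inv_pow, inv_inv]
      _ ≤ 2 * 2 ^ k := by
          have : (0 : ℝ) < 2 ^ k := by positivity
          linarith

/-- the truncated distance `max ‖y‖ δ` -/
noncomputable def rr {n : ℕ} (δ : ℝ) (y : E n) : ℝ≥0∞ := ENNReal.ofReal (max ‖y‖ δ)

theorem rr_meas {n : ℕ} (δ : ℝ) : Measurable (rr δ : E n → ℝ≥0∞) := by
  unfold rr
  exact (measurable_norm.max measurable_const).ennreal_ofReal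

theorem rr_ne_top {n : ℕ} (δ : ℝ) (y : E n) : rr δ y ≠ ∞ := ENNReal.ofReal_ne_top

theorem rr_ne_zero {n : ℕ} {δ : ℝ} (hδ : 0 < δ) (y : E n) : rr δ y ≠ 0 :=
  (ENNReal.ofReal_pos.2 (lt_max_of_lt_right hδ)).ne'

theorem rr_ge {n : ℕ} (δ : ℝ) (y : E n) : ENNReal.ofReal δ ≤ rr δ y :=
  ENNReal.ofReal_le_ofReal (le_max_right _ _)

/-- integrals of powers of `1 / max ‖y‖ δ` -/
theorem int_inv {n : ℕ} (lam : Measure (E n)) {δ : ℝ} (hδ : 0 < δ) (hδ1 : δ < 1) (q : ℕ) {M : ℝ}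
    (hM : 0 ≤ M) (h2 : lam {y | 2 < ‖y‖} = 0)
    (hb : ∀ k : ℕ, lam {y | ‖y‖ ≤ 2 * (1 / 2 : ℝ) ^ k} ≤ ENNReal.ofReal (M * ((1 / 2 : ℝ) ^ k) ^ q)) :
    ∫⁻ y, ((rr δ y)⁻¹) ^ q ∂lam ≤
      ENNReal.ofReal (2 ^ q * M * (2 * (1 + Real.log (1 / δ)))) := by
  obtain ⟨K, hK, hd⟩ := dyadic hδ hδ1
  have hae : ∀ᵐ y ∂lam, ‖y‖ ≤ 2 := by
    rw [ae_iff]
    simpa only [not_le] using h2
  have hms : ∀ k : ℕ, MeasurableSet {y : E n | ‖y‖ ≤ 2 * (1 / 2 : ℝ) ^ k} := fun k =>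
    (isClosed_le continuous_norm continuous_const).measurableSet
  have hpt : ∀ᵐ y ∂lam, ((rr δ y)⁻¹) ^ q ≤ ∑ k ∈ Finset.range (K + 1),
      {y : E n | ‖y‖ ≤ 2 * (1 / 2 : ℝ) ^ k}.indicator
        (fun _ => ENNReal.ofReal ((2 * 2 ^ k) ^ q)) y := by
    filter_upwards [hae] with y hy
    obtain ⟨k, hk, h3, h4⟩ := hd ‖y‖ hy
    have h5 : ((rr δ y)⁻¹) ^ q ≤ ENNReal.ofReal ((2 * 2 ^ k) ^ q) := by
      rw [ENNReal.ofReal_pow (by positivity)]
      gcongr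
      unfold rr
      rw [← ENNReal.ofReal_inv_of_pos (lt_max_of_lt_right hδ)]
      exact ENNReal.ofReal_le_ofReal h4
    refine h5.trans ?_
    refine le_trans (le_of_eq ?_) (Finset.single_le_sum (f := fun k =>
      {y : E n | ‖y‖ ≤ 2 * (1 / 2 : ℝ) ^ k}.indicator
        (fun _ => ENNReal.ofReal ((2 * 2 ^ k) ^ q)) y) (fun _ _ => zero_le)
      (Finset.mem_range.2 (Nat.lt_succ_of_le hk)))
    rw [indicator_of_mem (by exact h3)]
  calc ∫⁻ y, ((rr δ y)⁻¹) ^ q ∂lam ≤ ∫⁻ y, ∑ k ∈ Finset.range (K + 1),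
        {y : E n | ‖y‖ ≤ 2 * (1 / 2 : ℝ) ^ k}.indicator
          (fun _ => ENNReal.ofReal ((2 * 2 ^ k) ^ q)) y ∂lam := lintegral_mono_ae hpt
    _ = ∑ k ∈ Finset.range (K + 1), ENNReal.ofReal ((2 * 2 ^ k) ^ q) *
          lam {y : E n | ‖y‖ ≤ 2 * (1 / 2 : ℝ) ^ k} := by
        rw [lintegral_finsetSum _ (fun k _ => measurable_const.indicator (hms k))]
        refine Finset.sum_congr rfl fun k _ => ?_
        rw [lintegral_indicator (hms k), setLIntegral_const]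
    _ ≤ ∑ k ∈ Finset.range (K + 1), ENNReal.ofReal (2 ^ q * M) := by
        refine Finset.sum_le_sum fun k _ => ?_
        refine (mul_le_mul' le_rfl (hb k)).trans ?_
        rw [← ENNReal.ofReal_mul (by positivity)]
        apply ENNReal.ofReal_le_ofReal
        rw [mul_pow]
        have h6 : ((2 : ℝ) ^ k) ^ q * ((1 / 2 : ℝ) ^ k) ^ q = 1 := by
          rw [← mul_pow, ← mul_pow]; norm_num
        calc (2 : ℝ) ^ q * (2 ^ k) ^ q * (M * ((1 / 2 : ℝ) ^ k) ^ q) =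
              2 ^ q * M * (((2 : ℝ) ^ k) ^ q * ((1 / 2 : ℝ) ^ k) ^ q) := by ring
          _ = 2 ^ q * M := by rw [h6, mul_one]
          _ ≤ _ := le_rfl
    _ = ENNReal.ofReal (((K : ℝ) + 1) * (2 ^ q * M)) := by
        rw [Finset.sum_const, Finset.card_range, nsmul_eq_mul,
          ENNReal.ofReal_mul (p := (K : ℝ) + 1) (by positivity)]
        congr 1
        rw [← Nat.cast_add_one, ENNReal.ofReal_natCast]
    _ ≤ _ := by
        apply ENNReal.ofReal_le_ofReal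
        rw [mul_comm]
        gcongr

theorem tube_norm {n : ℕ} {δ : ℝ} (hδ1 : δ < 1) {a e y : E n} (he : ‖e‖ = 1)
    (hy : y ∈ tube δ a e) : ‖y - a‖ ≤ 2 := by
  obtain ⟨h1, h2⟩ := hy
  calc ‖y - a‖ = ‖((y - a) - (inner ℝ (y - a) e) • e) + (inner ℝ (y - a) e) • e‖ := by
        congr 1; abel
    _ ≤ ‖(y - a) - (inner ℝ (y - a) e) • e‖ + ‖(inner ℝ (y - a) e) • e‖ := norm_add_le _ _
    _ ≤ 2 := by
        rw [norm_smul, he, mul_one, Real.norm_eq_abs]
        linarith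

theorem vol_low {n : ℕ} (hn : 1 ≤ n) : ∃ κ : ℝ, 0 < κ ∧ ∀ (a e : E n) (δ : ℝ), ‖e‖ = 1 →
    0 < δ → δ ≤ 1 → ENNReal.ofReal (κ * δ ^ (n - 1)) ≤ volume (tube δ a e) := by
  obtain ⟨d, rfl⟩ : ∃ d, n = d + 1 := ⟨n - 1, by omega⟩
  obtain ⟨κ, hκ, h⟩ := W131.HM.VOL d
  refine ⟨κ, hκ, ?_⟩
  intro a e δ he hδ hδ1
  rw [Nat.add_sub_cancel]
  refine (h a e δ he hδ hδ1).1.trans (measure_mono ?_)
  rintro y ⟨h1, h2⟩
  exact ⟨h1, h2⟩

theorem tube_meas {n : ℕ} (δ : ℝ) (a e : E n) : MeasurableSet (tube δ a e) :=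
  (tube_closed δ a e).measurableSet

/-- the integral of `1 / max(|x - a|, δ)` over a tube -/
theorem int_tube {n : ℕ} (hn : 1 ≤ n) {δ : ℝ} (hδ : 0 < δ) (hδ1 : δ < 1) (a : E n) {e : E n}
    (he : ‖e‖ = 1) : ∫⁻ x in tube δ a e, (rr δ (x - a))⁻¹ ≤
      ENNReal.ofReal (2 ^ (n + 2) * vb n * 7 * (δ ^ (n - 1) * (1 + Real.log (1 / δ)))) := by
  have hv := vb_pos n
  have h := int_inv (((volume : Measure (E n)).restrict (tube δ a e)).map (fun x => x - a)) hδ hδ1 1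
    (M := 2 ^ n * vb n * 7 * δ ^ (n - 1)) (by positivity) ?_ ?_
  · have hmm : Measurable (fun y : E n => ((rr δ y)⁻¹) ^ 1) := (rr_meas δ).inv.pow_const 1
    rw [lintegral_map hmm (measurable_sub_const a)] at h
    simp only [pow_one] at h
    refine h.trans (ENNReal.ofReal_le_ofReal (le_of_eq ?_))
    ring
  · rw [Measure.map_apply (measurable_sub_const a)
      (isOpen_lt continuous_const continuous_norm).measurableSet,
      Measure.restrict_apply (measurable_sub_const a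
        (isOpen_lt continuous_const continuous_norm).measurableSet)]
    convert measure_empty (μ := volume)
    ext x
    simp only [mem_inter_iff, mem_preimage, Set.mem_ofPred_eq, mem_empty_iff_false, iff_false,
      not_and]
    intro h3 h4
    exact absurd (tube_norm hδ1 he h4) (not_le.2 h3)
  · intro k
    rw [Measure.map_apply (measurable_sub_const a)
      (isClosed_le continuous_norm continuous_const).measurableSet,
      Measure.restrict_apply (measurable_sub_const a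
        (isClosed_le continuous_norm continuous_const).measurableSet)]
    refine le_trans (measure_mono ?_) ((vol_piece hn a he hδ
      (show (0 : ℝ) < (1 / 2 : ℝ) ^ k by positivity)).trans (ENNReal.ofReal_le_ofReal
        (le_of_eq (by ring))))
    rintro x ⟨h3, h4⟩
    exact ⟨h4, h3⟩

/-- the integral of `1 / max(|y|, δ)^n` over a ball -/
theorem int_ball {n : ℕ} {δ : ℝ} (hδ : 0 < δ) (hδ1 : δ < 1) :
    ∫⁻ y in closedBall (0 : E n) 2, ((rr δ y)⁻¹) ^ n ≤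
      ENNReal.ofReal (2 ^ n * (2 ^ n * vb n) * (2 * (1 + Real.log (1 / δ)))) := by
  have hv := vb_pos n
  refine int_inv _ hδ hδ1 n (by positivity) ?_ ?_
  · rw [Measure.restrict_apply (isOpen_lt continuous_const continuous_norm).measurableSet]
    convert measure_empty (μ := volume)
    ext x
    simp only [mem_inter_iff, Set.mem_ofPred_eq, mem_closedBall, dist_zero_right,
      mem_empty_iff_false, iff_false, not_and, not_le]
    exact fun h => h
  · intro k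
    refine (Measure.restrict_apply_le _ _).trans ?_
    have h1 : {y : E n | ‖y‖ ≤ 2 * (1 / 2 : ℝ) ^ k} = closedBall 0 (2 * (1 / 2 : ℝ) ^ k) := by
      ext y; simp
    rw [h1, vol_cball _ (by positivity)]
    exact ENNReal.ofReal_le_ofReal (le_of_eq (by ring))

end Pool.Agent.Q184.RK
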