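import Pool.Agent.Q184.RK.Det

set_option autoImplicit false

/-! # Averages over tubes: weights -/

open MeasureTheory Set Metric
open scoped ENNReal NNReal

namespace Pool.Agent.Q184.RK

open Pool.Agent.TH705.RR

variable {n : ℕ} {ι : Type} [Fintype ι]

/-- number of tubes through `x` -/
noncomputable def mu (δ : ℝ) (a e : ι → E n) (x : E n) : ℝ≥0∞ :=
  ∑ i, (tube δ (a i) (e i)).indicator (fun _ => (1 : ℝ≥0∞)) x

/-- the weight of a tube -/
noncomputable def W (δ : ℝ) (a e : ι → E n) (i : ι) : ℝ≥0∞ :=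
  ∫⁻ x in tube δ (a i) (e i), mu δ a e x * rr δ (x - a i) ^ (n - 2)

/-- average over a tube -/
noncomputable def av (f : E n → ℝ≥0∞) (δ : ℝ) (a e : E n) : ℝ≥0∞ :=
  (∫⁻ x in tube δ a e, f x) / volume (tube δ a e)

theorem mu_meas (δ : ℝ) (a e : ι → E n) : Measurable (mu δ a e) :=
  Finset.measurable_fun_sum _ fun _ _ => measurable_const.indicator (tube_meas _ _ _)

theorem mu_ne_top (δ : ℝ) (a e : ι → E n) (x : E n) : mu δ a e x ≠ ∞ := by
  unfold mu
  refine (ENNReal.sum_lt_top.2 fun i _ => ?_).ne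
  refine lt_of_le_of_lt (indicator_le_self' (fun _ _ => zero_le) x) ENNReal.one_lt_top

theorem one_le_mu (δ : ℝ) (a e : ι → E n) {i : ι} {x : E n} (hx : x ∈ tube δ (a i) (e i)) :
    1 ≤ mu δ a e x := by
  unfold mu
  refine le_trans (le_of_eq ?_) (Finset.single_le_sum
    (f := fun i => (tube δ (a i) (e i)).indicator (fun _ => (1 : ℝ≥0∞)) x)
    (fun _ _ => zero_le) (Finset.mem_univ i))
  rw [indicator_of_mem hx]

/-- the sum over the tubes of the integrals of `g / mu` -/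
theorem sum_D (δ : ℝ) (a e : ι → E n) {g : E n → ℝ≥0∞} (hg : AEMeasurable g) :
    ∑ i, ∫⁻ x in tube δ (a i) (e i), g x * (mu δ a e x)⁻¹ ≤ ∫⁻ x, g x := by
  have h1 : ∀ i, ∫⁻ x in tube δ (a i) (e i), g x * (mu δ a e x)⁻¹ =
      ∫⁻ x, (tube δ (a i) (e i)).indicator (fun _ => (1 : ℝ≥0∞)) x * (g x * (mu δ a e x)⁻¹) := by
    intro i
    rw [← lintegral_indicator (tube_meas _ _ _)]
    refine lintegral_congr fun x => ?_
    by_cases hx : x ∈ tube δ (a i) (e i)
    · rw [indicator_of_mem hx, indicator_of_mem hx, one_mul]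
    · rw [indicator_of_notMem hx, indicator_of_notMem hx, zero_mul]
  simp only [h1]
  have h2 : ∀ i ∈ (Finset.univ : Finset ι), AEMeasurable (fun x =>
      (tube δ (a i) (e i)).indicator (fun _ => (1 : ℝ≥0∞)) x * (g x * (mu δ a e x)⁻¹)) :=
    fun i _ => (measurable_const.indicator
      (tube_meas _ _ _)).aemeasurable.mul (hg.mul (mu_meas δ a e).inv.aemeasurable)
  rw [← lintegral_finsetSum' _ h2]
  refine lintegral_mono fun x => ?_
  simp only
  rw [← Finset.sum_mul]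
  calc _ = g x * (mu δ a e x * (mu δ a e x)⁻¹) := by
        unfold mu; ring
    _ ≤ g x * 1 := by
        gcongr
        exact ENNReal.mul_inv_le_one _
    _ = g x := mul_one _

theorem avg_bound (hn : 2 ≤ n) : ∃ C : ℝ → ℝ, (∀ p, 0 < C p) ∧ ∀ p : ℝ, 2 ≤ p → p ≤ n →
    ∀ δ : ℝ, 0 < δ → δ < 1 → ∀ (ι : Type) [Fintype ι] (a e : ι → E n), (∀ i, ‖e i‖ = 1) →
    ∀ f : E n → ℝ≥0∞, AEMeasurable f → ∃ D : ι → ℝ≥0∞, ∑ i, D i ≤ ∫⁻ x, f x ^ p ∧
      ∀ i, ENNReal.ofReal (δ ^ (n - 1)) * av f δ (a i) (e i) ^ p ≤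
        ENNReal.ofReal (C p * (1 + Real.log (1 / δ)) ^ (p - 2) * δ ^ (-((n : ℝ) - p))) *
          (W δ a e i * ENNReal.ofReal ((δ ^ (n - 1))⁻¹)) * D i := by
  obtain ⟨κ, hκ, hvol⟩ := vol_low (n := n) (by omega)
  obtain ⟨c1, hc1⟩ : ∃ c1 : ℝ, c1 = 2 ^ (n + 2) * vb n * 7 := ⟨_, rfl⟩
  have hc1p : 0 < c1 := by
    have hv := vb_pos n
    rw [hc1]
    positivity
  refine ⟨fun p => c1 ^ (p - 2) * κ ^ (-p), fun p => by positivity, ?_⟩
  intro p hp hpn δ hδ hδ1 ι _ a e he f hf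
  have hp0 : 0 < p := by linarith
  refine ⟨fun i => ∫⁻ x in tube δ (a i) (e i), f x ^ p * (mu δ a e x)⁻¹,
    sum_D δ a e (hf.pow_const p), fun i => ?_⟩
  set T := tube δ (a i) (e i) with hT
  have hTm : MeasurableSet T := tube_meas _ _ _
  set D := ∫⁻ x in T, f x ^ p * (mu δ a e x)⁻¹ with hD
  have hL : 0 < 1 + Real.log (1 / δ) := by
    have : 0 ≤ Real.log (1 / δ) := Real.log_nonneg (by rw [le_div_iff₀ hδ]; linarith)
    linarith
  set L := 1 + Real.log (1 / δ) with hLdef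
  -- Hölder
  have h1 := holder3 ((volume : Measure (E n)).restrict T) (f := f) (μ := mu δ a e)
    (r := fun x => rr δ (x - a i)) hf.restrict (mu_meas δ a e).aemeasurable
    ((rr_meas δ).comp (measurable_sub_const (a i))).aemeasurable hp (by
      filter_upwards [ae_restrict_mem hTm] with x hx
      refine ⟨?_, mu_ne_top _ _ _ _, rr_ne_zero hδ _, rr_ne_top _ _⟩
      have := one_le_mu δ a e hx
      intro h0
      rw [h0] at this
      simp at this)
  -- the weight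
  have h2 : ∫⁻ x in T, mu δ a e x * rr δ (x - a i) ^ (p - 2) ≤
      ENNReal.ofReal (δ ^ (-((n : ℝ) - p))) * W δ a e i := by
    unfold W
    rw [← lintegral_const_mul' _ _ ENNReal.ofReal_ne_top]
    refine lintegral_mono fun x => ?_
    have h3 : rr δ (x - a i) ^ (p - 2) ≤
        ENNReal.ofReal (δ ^ (-((n : ℝ) - p))) * rr δ (x - a i) ^ (n - 2) := by
      have e1 : p - 2 = -((n : ℝ) - p) + ((n - 2 : ℕ) : ℝ) := by
        rw [Nat.cast_sub hn]; push_cast; ring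
      rw [e1, ENNReal.rpow_add _ _ (rr_ne_zero hδ _) (rr_ne_top _ _), ENNReal.rpow_natCast]
      gcongr
      rw [← ENNReal.ofReal_rpow_of_pos hδ, ENNReal.rpow_neg, ENNReal.rpow_neg]
      gcongr
      exact rr_ge _ _
    calc mu δ a e x * rr δ (x - a i) ^ (p - 2) ≤ mu δ a e x *
          (ENNReal.ofReal (δ ^ (-((n : ℝ) - p))) * rr δ (x - a i) ^ (n - 2)) := by gcongr
      _ = _ := by ring
  have h3 := int_tube (show 1 ≤ n by omega) hδ hδ1 (a i) (he i)
  rw [← hc1] at h3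
  have h4 : (∫⁻ x in T, (rr δ (x - a i))⁻¹) ^ (p - 2) ≤
      ENNReal.ofReal ((c1 * (δ ^ (n - 1) * L)) ^ (p - 2)) := by
    rw [← ENNReal.ofReal_rpow_of_nonneg (by positivity) (by linarith)]
    exact ENNReal.rpow_le_rpow h3 (by linarith)
  have h5 : ENNReal.ofReal (κ * δ ^ (n - 1)) ≤ volume T := hvol (a i) (e i) δ (he i) hδ hδ1.le
  have h6 : (∫⁻ x in T, f x) ^ p ≤ D * (ENNReal.ofReal (δ ^ (-((n : ℝ) - p))) * W δ a e i) *
      ENNReal.ofReal ((c1 * (δ ^ (n - 1) * L)) ^ (p - 2)) := h1.trans (by gcongr)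
  have h7 : (volume T ^ p)⁻¹ ≤ ENNReal.ofReal ((κ * δ ^ (n - 1)) ^ (-p)) := by
    rw [← ENNReal.rpow_neg, ← ENNReal.ofReal_rpow_of_pos (by positivity), ENNReal.rpow_neg,
      ENNReal.rpow_neg]
    gcongr
  have hX : 0 < δ ^ (n - 1) := by positivity
  calc ENNReal.ofReal (δ ^ (n - 1)) * av f δ (a i) (e i) ^ p
      = ENNReal.ofReal (δ ^ (n - 1)) * ((∫⁻ x in T, f x) ^ p * (volume T ^ p)⁻¹) := by
        unfold av
        rw [ENNReal.div_rpow_of_nonneg _ _ hp0.le, div_eq_mul_inv]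
    _ ≤ ENNReal.ofReal (δ ^ (n - 1)) * ((D * (ENNReal.ofReal (δ ^ (-((n : ℝ) - p))) * W δ a e i) *
          ENNReal.ofReal ((c1 * (δ ^ (n - 1) * L)) ^ (p - 2))) *
          ENNReal.ofReal ((κ * δ ^ (n - 1)) ^ (-p))) := by gcongr
    _ = (ENNReal.ofReal (δ ^ (n - 1)) * ENNReal.ofReal (δ ^ (-((n : ℝ) - p))) *
          ENNReal.ofReal ((c1 * (δ ^ (n - 1) * L)) ^ (p - 2)) *
          ENNReal.ofReal ((κ * δ ^ (n - 1)) ^ (-p))) * W δ a e i * D := by ring
    _ = (ENNReal.ofReal (c1 ^ (p - 2) * κ ^ (-p) * L ^ (p - 2) * δ ^ (-((n : ℝ) - p))) *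
          ENNReal.ofReal ((δ ^ (n - 1))⁻¹)) * W δ a e i * D := by
        congr 2
        rw [← ENNReal.ofReal_mul (by positivity), ← ENNReal.ofReal_mul (by positivity),
          ← ENNReal.ofReal_mul (by positivity), ← ENNReal.ofReal_mul (by positivity)]
        congr 1
        rw [Real.mul_rpow (by positivity) (by positivity),
          Real.mul_rpow (by positivity) (by positivity), Real.mul_rpow hκ.le (by positivity)]
        have h8 : δ ^ (n - 1) * ((δ ^ (n - 1)) ^ (p - 2) * (δ ^ (n - 1)) ^ (-p)) =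
            (δ ^ (n - 1))⁻¹ := by
          rw [← Real.rpow_add hX, ← Real.rpow_one_add' hX.le (by ring_nf; norm_num)]
          rw [show (1 : ℝ) + (p - 2 + -p) = -1 by ring, Real.rpow_neg_one]
        calc _ = c1 ^ (p - 2) * κ ^ (-p) * L ^ (p - 2) * δ ^ (-((n : ℝ) - p)) *
              (δ ^ (n - 1) * ((δ ^ (n - 1)) ^ (p - 2) * (δ ^ (n - 1)) ^ (-p))) := by ring
          _ = _ := by rw [h8]
    _ = _ := by ring

end Pool.Agent.Q184.RK
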