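import Pool.Agent.Q184.RK.Mean
import Pool.Agent.Y789.KM.Fin

set_option autoImplicit false

/-! # The Kakeya maximal estimate for random matchings -/

open MeasureTheory Set Metric
open scoped ENNReal NNReal

namespace Pool.Agent.Q184.RK

open Pool.Agent.TH705.RR Pool.Agent.Y789.KM

variable {n : ℕ}

theorem jensen' {X : Type*} [MeasurableSpace X] (ν : Measure X) [IsProbabilityMeasure ν] {p : ℝ}
    (hp : 1 ≤ p) {f : X → ℝ≥0∞} (hf : AEMeasurable f ν) :
    (∫⁻ x, f x ∂ν) ^ p ≤ ∫⁻ x, f x ^ p ∂ν := by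
  have hp0 : 0 < p := by linarith
  have h := eLpNorm'_le_eLpNorm'_of_exponent_le (f := f) one_pos hp ν hf.aestronglyMeasurable
  unfold eLpNorm' at h
  simp only [enorm_eq_self, ENNReal.rpow_one, div_one] at h
  calc (∫⁻ x, f x ∂ν) ^ p ≤ ((∫⁻ x, f x ^ p ∂ν) ^ (1 / p)) ^ p := ENNReal.rpow_le_rpow h hp0.le
    _ = _ := by
        rw [← ENNReal.rpow_mul, one_div_mul_cancel hp0.ne', ENNReal.rpow_one]

theorem av_jensen (hn : 1 ≤ n) {f : E n → ℝ≥0∞} (hf : AEMeasurable f) {δ : ℝ} (hδ : 0 < δ)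
    (hδ1 : δ < 1) (a : E n) {e : E n} (he : ‖e‖ = 1) {s : ℝ} (hs : 1 ≤ s) :
    av f δ a e ^ s ≤ av (fun x => f x ^ s) δ a e := by
  obtain ⟨κ, hκ, hvol⟩ := vol_low (n := n) hn
  set T := tube δ a e with hT
  have h0 : volume T ≠ 0 := by
    intro h
    have := hvol a e δ he hδ hδ1.le
    rw [← hT, h] at this
    simp only [nonpos_iff_eq_zero, ENNReal.ofReal_eq_zero] at this
    have h2 : 0 < κ * δ ^ (n - 1) := by positivity
    linarith
  have h1 : volume T ≠ ∞ := by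
    have h2 : T ⊆ closedBall a 2 := fun y hy => by
      rw [mem_closedBall, dist_eq_norm]
      exact tube_norm hδ1 he hy
    exact ((measure_mono h2).trans_lt measure_closedBall_lt_top).ne
  have hprob : IsProbabilityMeasure ((volume T)⁻¹ • (volume : Measure (E n)).restrict T) := by
    constructor
    rw [Measure.smul_apply, Measure.restrict_apply_univ, smul_eq_mul, ENNReal.inv_mul_cancel h0 h1]
  have e1 : ∀ g : E n → ℝ≥0∞, av g δ a e =
      ∫⁻ x, g x ∂((volume T)⁻¹ • (volume : Measure (E n)).restrict T) := by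
    intro g
    unfold av
    rw [lintegral_smul_measure, smul_eq_mul, div_eq_mul_inv, mul_comm]
  rw [e1, e1]
  exact jensen' _ hs (hf.restrict.mono_ac (Measure.smul_absolutelyContinuous))

/-- all exponents `p ≥ 2` -/
theorem avg_bound' (hn : 2 ≤ n) : ∃ C : ℝ → ℝ, (∀ p, 0 < C p) ∧ ∀ p : ℝ, 2 ≤ p →
    ∀ δ : ℝ, 0 < δ → δ < 1 → ∀ (ι : Type) [Fintype ι] (a e : ι → E n), (∀ i, ‖e i‖ = 1) →
    ∀ f : E n → ℝ≥0∞, AEMeasurable f → ∃ D : ι → ℝ≥0∞, ∑ i, D i ≤ ∫⁻ x, f x ^ p ∧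
      ∀ i, ENNReal.ofReal (δ ^ (n - 1)) * av f δ (a i) (e i) ^ p ≤
        ENNReal.ofReal (C p * (1 + Real.log (1 / δ)) ^ (min p n - 2) *
          δ ^ (-(max 0 ((n : ℝ) - p)))) *
          (W δ a e i * ENNReal.ofReal ((δ ^ (n - 1))⁻¹)) * D i := by
  obtain ⟨C, hC, h⟩ := avg_bound hn
  refine ⟨fun p => C (min p n), fun p => hC _, ?_⟩
  intro p hp δ hδ hδ1 ι _ a e he f hf
  rcases le_total p n with hpn | hpn
  · obtain ⟨D, hD, hD2⟩ := h p hp hpn δ hδ hδ1 ι a e he f hf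
    refine ⟨D, hD, fun i => ?_⟩
    simp only
    rw [min_eq_left hpn, max_eq_right (by linarith)]
    exact hD2 i
  · have hn2 : (2 : ℝ) ≤ n := by exact_mod_cast hn
    have hn0 : (0 : ℝ) < n := by linarith
    obtain ⟨D, hD, hD2⟩ := h n hn2 le_rfl δ hδ hδ1 ι a e he (fun x => f x ^ (p / n))
      (hf.pow_const _)
    refine ⟨D, ?_, fun i => ?_⟩
    · refine hD.trans (le_of_eq (lintegral_congr fun x => ?_))
      rw [← ENNReal.rpow_mul, div_mul_cancel₀ _ hn0.ne']
    · simp only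
      rw [min_eq_right hpn, max_eq_left (by linarith)]
      have h1 := hD2 i
      rw [sub_self] at h1
      refine le_trans ?_ h1
      gcongr
      have h2 := av_jensen (by omega) hf hδ hδ1 (a i) (he i) (s := p / n) (by
        rw [le_div_iff₀ hn0, one_mul]; exact hpn)
      calc av f δ (a i) (e i) ^ p = (av f δ (a i) (e i) ^ (p / n)) ^ (n : ℝ) := by
            rw [← ENNReal.rpow_mul, div_mul_cancel₀ _ hn0.ne']
        _ ≤ _ := ENNReal.rpow_le_rpow h2 hn0.le

/-- The estimates from `L^p` to `L^(p/s)` for the tubes of the index set `S`. -/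
def Est {ι : Type} (C : ℝ → ℝ) (M : ℝ) (S : Finset ι) (s δ : ℝ) (a e : ι → E n) : Prop :=
  ∀ p : ℝ, 2 ≤ p → ∀ f : E n → ℝ≥0∞, AEMeasurable f →
    (∑ i ∈ S, ENNReal.ofReal (δ ^ (n - 1)) * av f δ (a i) (e i) ^ (p / s)) ^ s ≤
      ENNReal.ofReal (C p * M * (1 + Real.log (1 / δ)) ^ (min p n - 1) *
        δ ^ (-(max 0 ((n : ℝ) - p)))) * ∫⁻ x, f x ^ p

/-- few exceptional directions, or the loss of a square root -/
def GoodF {ι : Type} [Fintype ι] [DecidableEq ι] (C : ℝ → ℝ) (A η δ : ℝ) (a e : ι → E n) : Prop :=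
  (∃ S : Finset ι, ((Finset.univ \ S).card : ℝ) * δ ^ (n - 1) ≤ η ∧ Est C (A / η ^ 2) S 1 δ a e) ∧
    Est C (A / η) (Finset.univ : Finset ι) 2 δ a e

/-- **deterministic consequence** -/
theorem good_of (hn : 2 ≤ n) : ∃ C : ℝ → ℝ, (∀ p, 0 < C p) ∧ ∀ (δ : ℝ), 0 < δ → δ < 1 →
    ∀ (ι : Type) [Fintype ι] [DecidableEq ι] (a e : ι → E n), (∀ i, ‖e i‖ = 1) → ∀ (c A η : ℝ),
      1 ≤ c → 1 ≤ A → 0 < η →
      ∑ i, W δ a e i ≤ ENNReal.ofReal (c * A * (1 + Real.log (1 / δ)) / η) →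
      GoodF (fun p => c * C p) A η δ a e := by
  classical
  obtain ⟨C, hC, hav⟩ := avg_bound' hn
  refine ⟨C, hC, ?_⟩
  intro δ hδ hδ1 ι _ _ a e he c A η hc hA hη hW
  have hL : 1 ≤ 1 + Real.log (1 / δ) := by
    have : 0 ≤ Real.log (1 / δ) := Real.log_nonneg (by rw [le_div_iff₀ hδ]; linarith)
    linarith
  set L := 1 + Real.log (1 / δ) with hLdef
  have hL0 : 0 < L := by linarith
  have hX : 0 < δ ^ (n - 1) := by positivity
  set X := δ ^ (n - 1) with hXdef
  set Λ : ℝ := c * A * L / η with hΛ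
  have hΛ0 : 0 < Λ := by positivity
  have hpow : ∀ p : ℝ, L ^ (min p (n : ℝ) - 2) * L = L ^ (min p (n : ℝ) - 1) := by
    intro p
    rw [← Real.rpow_add_one hL0.ne']
    congr 1; ring
  refine ⟨⟨Finset.univ.filter (fun i => W δ a e i ≤ ENNReal.ofReal (X * Λ / η)), ?_, ?_⟩, ?_⟩
  · -- few exceptions
    set J := (Finset.univ : Finset ι) \
      Finset.univ.filter (fun i => W δ a e i ≤ ENNReal.ofReal (X * Λ / η)) with hJ
    have h1 : ∀ i ∈ J, ENNReal.ofReal (X * Λ / η) ≤ W δ a e i := by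
      intro i hi
      simp only [hJ, Finset.mem_sdiff, Finset.mem_univ, Finset.mem_filter, true_and, not_le] at hi
      exact hi.le
    have h2 : (J.card : ℝ≥0∞) * ENNReal.ofReal (X * Λ / η) ≤ ENNReal.ofReal Λ := by
      calc (J.card : ℝ≥0∞) * ENNReal.ofReal (X * Λ / η) = ∑ _i ∈ J, ENNReal.ofReal (X * Λ / η) := by
            rw [Finset.sum_const, nsmul_eq_mul]
        _ ≤ ∑ i ∈ J, W δ a e i := Finset.sum_le_sum h1
        _ ≤ ∑ i, W δ a e i := Finset.sum_le_sum_of_subset (Finset.subset_univ J)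
        _ ≤ _ := hW
    rw [← ENNReal.ofReal_natCast, ← ENNReal.ofReal_mul (by positivity),
      ENNReal.ofReal_le_ofReal_iff hΛ0.le] at h2
    have h3 : (J.card : ℝ) * (X * Λ / η) = ((J.card : ℝ) * X / η) * Λ := by ring
    rw [h3] at h2
    have h4 : (J.card : ℝ) * X / η ≤ 1 := by
      by_contra hcon
      push Not at hcon
      nlinarith
    rwa [div_le_one hη] at h4
  · -- strong type outside the exceptions
    intro p hp f hf
    obtain ⟨D, hD, hb⟩ := hav p hp δ hδ hδ1 ι a e he f hf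
    rw [ENNReal.rpow_one]
    simp only [div_one]
    calc _ ≤ ∑ i ∈ Finset.univ.filter (fun i => W δ a e i ≤ ENNReal.ofReal (X * Λ / η)),
          ENNReal.ofReal (C p * L ^ (min p n - 2) * δ ^ (-(max 0 ((n : ℝ) - p)))) *
            (ENNReal.ofReal (X * Λ / η) * ENNReal.ofReal (X⁻¹)) * D i := by
          refine Finset.sum_le_sum fun i hi => (hb i).trans ?_
          have := (Finset.mem_filter.1 hi).2
          gcongr
      _ ≤ ENNReal.ofReal (C p * L ^ (min p n - 2) * δ ^ (-(max 0 ((n : ℝ) - p)))) *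
            (ENNReal.ofReal (X * Λ / η) * ENNReal.ofReal (X⁻¹)) * ∑ i, D i := by
          rw [← Finset.mul_sum]
          gcongr
          exact Finset.filter_subset _ _
      _ ≤ ENNReal.ofReal (C p * L ^ (min p n - 2) * δ ^ (-(max 0 ((n : ℝ) - p)))) *
            (ENNReal.ofReal (X * Λ / η) * ENNReal.ofReal (X⁻¹)) * ∫⁻ x, f x ^ p := by gcongr
      _ = _ := by
          have hCp := hC p
          rw [← ENNReal.ofReal_mul (by positivity), ← ENNReal.ofReal_mul (by positivity)]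
          congr 2
          rw [← hpow p, hΛ]
          field_simp
  · -- the loss of a square root
    intro p hp f hf
    obtain ⟨D, hD, hb⟩ := hav p hp δ hδ hδ1 ι a e he f hf
    have hCp := hC p
    set Kc := ENNReal.ofReal (C p * L ^ (min p n - 2) * δ ^ (-(max 0 ((n : ℝ) - p)))) with hKc
    set al := ENNReal.ofReal X with hal
    have hal2 : al * ENNReal.ofReal X⁻¹ = 1 := by
      rw [hal, ← ENNReal.ofReal_mul hX.le, mul_inv_cancel₀ hX.ne', ENNReal.ofReal_one]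
    have hterm : ∀ i, al * av f δ (a i) (e i) ^ (p / 2) ≤
        Kc ^ (1 / 2 : ℝ) * (W δ a e i ^ (1 / 2 : ℝ) * D i ^ (1 / 2 : ℝ)) := by
      intro i
      have h1 : (al * av f δ (a i) (e i) ^ (p / 2)) = (al * (al * av f δ (a i) (e i) ^ p)) ^
          (1 / 2 : ℝ) := by
        rw [← mul_assoc, ENNReal.mul_rpow_of_nonneg _ _ (by norm_num),
          ENNReal.mul_rpow_of_nonneg _ _ (by norm_num), ← ENNReal.rpow_mul,
          ← ENNReal.rpow_add_of_nonneg _ _ (by norm_num) (by norm_num)]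
        rw [show (1 / 2 : ℝ) + 1 / 2 = 1 by norm_num, ENNReal.rpow_one, mul_one_div]
      rw [h1]
      calc (al * (al * av f δ (a i) (e i) ^ p)) ^ (1 / 2 : ℝ) ≤
            (al * (Kc * (W δ a e i * ENNReal.ofReal X⁻¹) * D i)) ^ (1 / 2 : ℝ) :=
            ENNReal.rpow_le_rpow (mul_le_mul' le_rfl (hb i)) (by norm_num)
        _ = (Kc * (W δ a e i * D i) * (al * ENNReal.ofReal X⁻¹)) ^ (1 / 2 : ℝ) := by
            congr 1; ring
        _ = _ := by
            rw [hal2, mul_one, ENNReal.mul_rpow_of_nonneg _ _ (by norm_num),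
              ENNReal.mul_rpow_of_nonneg _ _ (by norm_num)]
    have hcs : ∑ i, W δ a e i ^ (1 / 2 : ℝ) * D i ^ (1 / 2 : ℝ) ≤
        (∑ i, W δ a e i) ^ (1 / 2 : ℝ) * (∑ i, D i) ^ (1 / 2 : ℝ) := by
      have h1 := ENNReal.inner_le_Lp_mul_Lq (Finset.univ : Finset ι)
        (fun i => W δ a e i ^ (1 / 2 : ℝ)) (fun i => D i ^ (1 / 2 : ℝ))
        (Real.HolderConjugate.two_two)
      simp only [← ENNReal.rpow_mul] at h1
      rw [show (1 / 2 : ℝ) * 2 = 1 by norm_num] at h1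
      simpa only [ENNReal.rpow_one] using h1
    calc (∑ i, al * av f δ (a i) (e i) ^ (p / 2)) ^ (2 : ℝ) ≤
          (Kc ^ (1 / 2 : ℝ) * ((∑ i, W δ a e i) ^ (1 / 2 : ℝ) * (∑ i, D i) ^ (1 / 2 : ℝ))) ^
            (2 : ℝ) := by
          refine ENNReal.rpow_le_rpow ?_ (by norm_num)
          refine (Finset.sum_le_sum fun i _ => hterm i).trans ?_
          rw [← Finset.mul_sum]
          gcongr
      _ = Kc * ((∑ i, W δ a e i) * ∑ i, D i) := by
          rw [ENNReal.mul_rpow_of_nonneg _ _ (by norm_num),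
            ENNReal.mul_rpow_of_nonneg _ _ (by norm_num), ← ENNReal.rpow_mul,
            ← ENNReal.rpow_mul, ← ENNReal.rpow_mul]
          rw [show (1 / 2 : ℝ) * 2 = 1 by norm_num]
          simp only [ENNReal.rpow_one]
      _ ≤ Kc * (ENNReal.ofReal Λ * ∫⁻ x, f x ^ p) := by gcongr
      _ = _ := by
          rw [← mul_assoc, hKc, ← ENNReal.ofReal_mul (by positivity)]
          congr 2
          rw [← hpow p, hΛ]
          field_simp

theorem W_meas {ι : Type} [Fintype ι] {Ω : Type} [MeasurableSpace Ω] {a : Ω → ι → E n}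
    (ha : ∀ i, Measurable (fun x => a x i)) (δ : ℝ) (e : ι → E n) :
    Measurable (fun ω => ∑ i, W δ (a ω) e i) := by
  have hGm : ∀ i, Measurable (fun z : Ω × E n => G δ (e i) (z.2 - a z.1 i)) := fun i =>
    (G_meas δ (e i)).comp (measurable_snd.sub ((ha i).comp measurable_fst))
  have hHm : ∀ i, Measurable (fun z : Ω × E n => H δ (e i) (z.2 - a z.1 i)) := fun i =>
    (H_meas δ (e i)).comp (measurable_snd.sub ((ha i).comp measurable_fst))
  refine Finset.measurable_fun_sum _ fun i _ => ?_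
  simp only [W_eq]
  have h1 : Measurable (fun z : Ω × E n =>
      ∑ j, G δ (e i) (z.2 - a z.1 i) * H δ (e j) (z.2 - a z.1 j)) :=
    Finset.measurable_fun_sum _ fun j _ => (hGm i).mul (hHm j)
  exact h1.lintegral_prod_right'

/-- **random positions** -/
theorem most (hn : 2 ≤ n) : ∃ C : ℝ → ℝ, (∀ p, 0 < C p) ∧
    ∀ (Ω : Type) [MeasurableSpace Ω] (P : Measure Ω) [IsProbabilityMeasure P]
      (ν : Measure (E n)) [IsProbabilityMeasure ν] (A : ℝ), 1 ≤ A →
    ∀ (ι : Type) [Fintype ι] [DecidableEq ι] (a : Ω → ι → E n),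
      Pairwise' P ν (ENNReal.ofReal A) a →
    ∀ (e : ι → E n) (δ : ℝ), 0 < δ → δ < 1 → (∀ i, ‖e i‖ = 1) →
      (∀ i j, i ≠ j → δ ≤ ‖e i - e j‖) → ∀ η : ℝ, 0 < η → η ≤ 1 →
      P {x | ¬ GoodF C A η δ (a x) e} ≤ ENNReal.ofReal η := by
  obtain ⟨C, hC, hg⟩ := good_of hn
  obtain ⟨c, hc, hm⟩ := mean_W hn
  refine ⟨fun p => c * C p, fun p => by have := hC p; positivity, ?_⟩
  intro Ω _ P _ ν _ A hA ι _ _ a ha e δ hδ hδ1 he hsep η hη hη1
  have hL : 1 ≤ 1 + Real.log (1 / δ) := by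
    have : 0 ≤ Real.log (1 / δ) := Real.log_nonneg (by rw [le_div_iff₀ hδ]; linarith)
    linarith
  set L := 1 + Real.log (1 / δ) with hLdef
  have hL0 : 0 < L := by linarith
  have hM := hm δ hδ hδ1 ι e he hsep Ω P ν A hA a ha
  set Λ : ℝ := c * A * L / η with hΛ
  have hΛ0 : 0 < Λ := by positivity
  have hsub : {x | ¬ GoodF (fun p => c * C p) A η δ (a x) e} ⊆
      {x | ENNReal.ofReal Λ ≤ ∑ i, W δ (a x) e i} := by
    intro x hx
    simp only [Set.mem_ofPred_eq] at hx ⊢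
    by_contra hcon
    push Not at hcon
    exact hx (hg δ hδ hδ1 ι (a x) e he c A η hc hA hη hcon.le)
  have h1 := mul_meas_ge_le_lintegral₀ (μ := P) (f := fun x => ∑ i, W δ (a x) e i)
    (W_meas ha.meas δ e).aemeasurable (ENNReal.ofReal Λ)
  have h2 : ENNReal.ofReal Λ * P {x | ¬ GoodF (fun p => c * C p) A η δ (a x) e} ≤
      ENNReal.ofReal Λ * ENNReal.ofReal η := by
    calc _ ≤ ENNReal.ofReal Λ * P {x | ENNReal.ofReal Λ ≤ ∑ i, W δ (a x) e i} :=
          mul_le_mul' le_rfl (measure_mono hsub)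
      _ ≤ _ := h1
      _ ≤ _ := hM
      _ = _ := by
          rw [← ENNReal.ofReal_mul hΛ0.le]
          congr 1
          rw [hΛ, ← hLdef]
          field_simp
  exact (ENNReal.mul_le_mul_iff_right (ENNReal.ofReal_pos.2 hΛ0).ne' ENNReal.ofReal_ne_top).1 h2

end Pool.Agent.Q184.RK
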