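import Pool.Agent.Q184.RK.Det2
import Pool.Agent.Y789.KM.Gen

set_option autoImplicit false

/-! # The mean of the weights for pairwise nearly independent positions -/

open MeasureTheory Set Metric
open scoped ENNReal NNReal

namespace Pool.Agent.Q184.RK

open Pool.Agent.TH705.RR Pool.Agent.Y789.KM

/-- products of functions of two nearly independent random elements -/
theorem prod2 {Ω X ι : Type*} [MeasurableSpace Ω] [MeasurableSpace X] {P : Measure Ω}
    {ν : Measure X} {A : ℝ≥0∞} {a : Ω → ι → X} (h : Pairwise' P ν A a) {i j : ι} (hij : i ≠ j)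
    {g k : X → ℝ≥0∞} (hg : Measurable g) (hk : Measurable k) :
    ∫⁻ x, g (a x i) * k (a x j) ∂P ≤ A * ((∫⁻ y, g y ∂ν) * ∫⁻ y, k y ∂ν) := by
  have hi := h.meas i
  have hj := h.meas j
  -- first step
  have h1 : ∀ V : Set X, MeasurableSet V →
      ∫⁻ x in {x | a x j ∈ V}, g (a x i) ∂P ≤ (A * ν V) * ∫⁻ y, g y ∂ν := by
    intro V hV
    have hle : (P.restrict {x | a x j ∈ V}).map (fun x => a x i) ≤ (A * ν V) • ν := by
      rw [Measure.le_iff]
      intro s hs
      rw [Measure.map_apply hi hs, Measure.restrict_apply (hi hs), Measure.smul_apply, smul_eq_mul]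
      calc P ((fun x => a x i) ⁻¹' s ∩ {x | a x j ∈ V}) = P {x | a x i ∈ s ∧ a x j ∈ V} := rfl
        _ ≤ A * (ν s * ν V) := h.two i j hij s V hs hV
        _ = A * ν V * ν s := by ring
    calc ∫⁻ x in {x | a x j ∈ V}, g (a x i) ∂P
        = ∫⁻ y, g y ∂((P.restrict {x | a x j ∈ V}).map (fun x => a x i)) := (lintegral_map hg hi).symm
      _ ≤ ∫⁻ y, g y ∂((A * ν V) • ν) := lintegral_mono' hle le_rfl
      _ = _ := lintegral_smul_measure _ _
  have hle : (P.withDensity (fun x => g (a x i))).map (fun x => a x j) ≤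
      (A * ∫⁻ y, g y ∂ν) • ν := by
    rw [Measure.le_iff]
    intro V hV
    rw [Measure.map_apply hj hV, withDensity_apply _ (hj hV), Measure.smul_apply, smul_eq_mul]
    calc _ ≤ (A * ν V) * ∫⁻ y, g y ∂ν := h1 V hV
      _ = _ := by ring
  calc ∫⁻ x, g (a x i) * k (a x j) ∂P
      = ∫⁻ x, k (a x j) ∂(P.withDensity (fun x => g (a x i))) := by
        have h2 : Measurable (fun x => g (a x i)) := hg.comp hi
        have h3 : Measurable (fun x => k (a x j)) := hk.comp hj
        rw [lintegral_withDensity_eq_lintegral_mul _ h2 h3]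
        rfl
    _ = ∫⁻ y, k y ∂((P.withDensity (fun x => g (a x i))).map (fun x => a x j)) :=
        (lintegral_map hk hj).symm
    _ ≤ ∫⁻ y, k y ∂((A * ∫⁻ y, g y ∂ν) • ν) := lintegral_mono' hle le_rfl
    _ = (A * ∫⁻ y, g y ∂ν) * ∫⁻ y, k y ∂ν := lintegral_smul_measure _ _
    _ = _ := by ring

variable {n : ℕ}

theorem mem_tube0 {δ : ℝ} {a e y : E n} : y ∈ tube δ a e ↔ y - a ∈ tube δ 0 e := by
  simp only [tube, Set.mem_ofPred_eq, sub_zero]

/-- the number of tubes centred at the origin through `y` -/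
noncomputable def B {ι : Type} [Fintype ι] (δ : ℝ) (e : ι → E n) (y : E n) : ℝ≥0∞ :=
  ∑ i, (tube δ 0 (e i)).indicator (fun _ => (1 : ℝ≥0∞)) y

theorem B_meas {ι : Type} [Fintype ι] (δ : ℝ) (e : ι → E n) : Measurable (B δ e) :=
  Finset.measurable_fun_sum _ fun _ _ => measurable_const.indicator (tube_meas _ _ _)

theorem count_tube (hn : 2 ≤ n) : ∃ K : ℝ, 1 ≤ K ∧ ∀ δ : ℝ, 0 < δ → δ < 1 →
    ∀ (ι : Type) [Fintype ι] (e : ι → E n), (∀ i, ‖e i‖ = 1) → (∀ i j, i ≠ j → δ ≤ ‖e i - e j‖) →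
      (Fintype.card ι : ℝ) * δ ^ (n - 1) ≤ K ∧
      ∀ y : E n, B δ e y ≤ (closedBall (0 : E n) 2).indicator
        (fun y => ENNReal.ofReal K * ((rr δ y)⁻¹) ^ (n - 1)) y := by
  obtain ⟨K, hK, hc⟩ := count (n := n) (by omega)
  refine ⟨K * 2 ^ (n - 1), by
    have : (1 : ℝ) ≤ 2 ^ (n - 1) := one_le_pow₀ (by norm_num)
    nlinarith, ?_⟩
  intro δ hδ hδ1 ι _ e he hsep
  classical
  -- a unit vector
  have hunit : ∃ w : E n, ‖w‖ = 1 := by
    refine ⟨EuclideanSpace.single (⟨0, by omega⟩ : Fin n) (1 : ℝ), ?_⟩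
    simp
  obtain ⟨w0, hw0⟩ := hunit
  have hcard : (Fintype.card ι : ℝ) ≤ K * (1 / δ) ^ (n - 1) := by
    have := hc δ hδ hδ1 e he hsep w0 hw0 Finset.univ 1 hδ1.le (fun j _ => sn_le_one _ _)
    rwa [Finset.card_univ] at this
  have h2pow : (1 : ℝ) ≤ 2 ^ (n - 1) := one_le_pow₀ (by norm_num)
  refine ⟨?_, fun y => ?_⟩
  · calc (Fintype.card ι : ℝ) * δ ^ (n - 1) ≤ K * (1 / δ) ^ (n - 1) * δ ^ (n - 1) := by gcongr
      _ = K * ((1 / δ) * δ) ^ (n - 1) := by rw [mul_pow]; ring
      _ = K := by rw [one_div_mul_cancel hδ.ne', one_pow, mul_one]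
      _ ≤ K * 2 ^ (n - 1) := by nlinarith
  · by_cases hy : y ∈ closedBall (0 : E n) 2
    · rw [indicator_of_mem hy]
      rw [mem_closedBall, dist_zero_right] at hy
      set J : Finset ι := Finset.univ.filter (fun i => y ∈ tube δ 0 (e i)) with hJ
      have hB : B δ e y = ENNReal.ofReal (J.card : ℝ) := by
        unfold B
        rw [ENNReal.ofReal_natCast, hJ, Finset.card_filter, Nat.cast_sum]
        refine Finset.sum_congr rfl fun i _ => ?_
        by_cases h : y ∈ tube δ 0 (e i)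
        · rw [indicator_of_mem h, if_pos h, Nat.cast_one]
        · rw [indicator_of_notMem h, if_neg h, Nat.cast_zero]
      have hM : 0 < max ‖y‖ δ := lt_max_of_lt_right hδ
      have hkey : (J.card : ℝ) ≤ K * 2 ^ (n - 1) * ((max ‖y‖ δ)⁻¹) ^ (n - 1) := by
        rcases le_total ‖y‖ δ with h | h
        · rw [max_eq_right h]
          calc (J.card : ℝ) ≤ Fintype.card ι := by exact_mod_cast Finset.card_le_univ J
            _ ≤ K * (1 / δ) ^ (n - 1) := hcard
            _ = K * 1 * (δ⁻¹) ^ (n - 1) := by rw [one_div, mul_one]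
            _ ≤ K * 2 ^ (n - 1) * (δ⁻¹) ^ (n - 1) := by gcongr
        · rw [max_eq_left h]
          have hy0 : 0 < ‖y‖ := hδ.trans_le h
          set w : E n := ‖y‖⁻¹ • y with hw
          have hw1 : ‖w‖ = 1 := by
            rw [hw, norm_smul, norm_inv, norm_norm, inv_mul_cancel₀ hy0.ne']
          have hJ2 : ∀ j ∈ J, sn w (e j) ≤ 2 * δ / ‖y‖ := by
            intro j hj
            rw [hJ, Finset.mem_filter] at hj
            obtain ⟨-, h1⟩ := hj.2
            rw [sub_zero] at h1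
            have h2 : ‖w - (inner ℝ (e j) w) • e j‖ = sn (e j) w := perp_norm (he j) hw1
            have h3 : w - (inner ℝ (e j) w) • e j = ‖y‖⁻¹ • (y - (inner ℝ y (e j)) • e j) := by
              rw [hw, inner_smul_right, smul_sub, smul_smul, real_inner_comm]
            rw [sn_comm, ← h2, h3, norm_smul, norm_inv, norm_norm]
            calc ‖y‖⁻¹ * ‖y - (inner ℝ y (e j)) • e j‖ ≤ ‖y‖⁻¹ * δ := by gcongr
              _ ≤ 2 * δ / ‖y‖ := by
                  rw [inv_mul_eq_div]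
                  gcongr
                  linarith
          have h4 := hc δ hδ hδ1 e he hsep w hw1 J (2 * δ / ‖y‖) (by
            rw [le_div_iff₀ hy0]
            nlinarith) hJ2
          calc (J.card : ℝ) ≤ K * (2 * δ / ‖y‖ / δ) ^ (n - 1) := h4
            _ = K * (2 * ‖y‖⁻¹) ^ (n - 1) := by
                congr 2
                field_simp
            _ = _ := by rw [mul_pow]; ring
      rw [hB]
      unfold rr
      rw [← ENNReal.ofReal_inv_of_pos hM, ← ENNReal.ofReal_pow (by positivity),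
        ← ENNReal.ofReal_mul (by positivity)]
      exact ENNReal.ofReal_le_ofReal hkey
    · rw [indicator_of_notMem hy]
      unfold B
      rw [Finset.sum_eq_zero fun i _ => ?_]
      rw [indicator_of_notMem]
      intro h
      apply hy
      rw [mem_closedBall, dist_zero_right]
      have := tube_norm hδ1 (he i) h
      rwa [sub_zero] at this

/-- summands of the weights -/
noncomputable def G (δ : ℝ) (e y : E n) : ℝ≥0∞ :=
  (tube δ 0 e).indicator (fun y => rr δ y ^ (n - 2)) y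

/-- indicators of tubes -/
noncomputable def H (δ : ℝ) (e y : E n) : ℝ≥0∞ :=
  (tube δ 0 e).indicator (fun _ => (1 : ℝ≥0∞)) y

theorem G_meas (δ : ℝ) (e : E n) : Measurable (G δ e) :=
  ((rr_meas δ).pow_const _).indicator (tube_meas _ _ _)

theorem H_meas (δ : ℝ) (e : E n) : Measurable (H δ e) :=
  measurable_const.indicator (tube_meas _ _ _)

theorem H_le (δ : ℝ) (e y : E n) : H δ e y ≤ 1 := indicator_le_self' (fun _ _ => zero_le) y

theorem W_eq {ι : Type} [Fintype ι] (δ : ℝ) (a e : ι → E n) (i : ι) :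
    W δ a e i = ∫⁻ x, ∑ j, G δ (e i) (x - a i) * H δ (e j) (x - a j) := by
  unfold W
  rw [← lintegral_indicator (tube_meas _ _ _)]
  refine lintegral_congr fun x => ?_
  rw [← Finset.mul_sum]
  have h1 : ∑ j, H δ (e j) (x - a j) = mu δ a e x := by
    unfold mu H
    refine Finset.sum_congr rfl fun j _ => ?_
    by_cases h : x ∈ tube δ (a j) (e j)
    · rw [indicator_of_mem h, indicator_of_mem (mem_tube0.1 h)]
    · rw [indicator_of_notMem h, indicator_of_notMem (fun h' => h (mem_tube0.2 h'))]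
  rw [h1]
  unfold G
  by_cases h : x ∈ tube δ (a i) (e i)
  · rw [indicator_of_mem h, indicator_of_mem (mem_tube0.1 h), mul_comm]
  · rw [indicator_of_notMem h, indicator_of_notMem (fun h' => h (mem_tube0.2 h')), zero_mul]

theorem sum_H {ι : Type} [Fintype ι] (δ : ℝ) (e : ι → E n) (y : E n) :
    ∑ j, H δ (e j) y = B δ e y := rfl

theorem sum_G {ι : Type} [Fintype ι] (δ : ℝ) (e : ι → E n) (y : E n) :
    ∑ j, G δ (e j) y = B δ e y * rr δ y ^ (n - 2) := by
  unfold B
  rw [Finset.sum_mul]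
  refine Finset.sum_congr rfl fun j _ => ?_
  unfold G
  by_cases h : y ∈ tube δ 0 (e j)
  · rw [indicator_of_mem h, indicator_of_mem h, one_mul]
  · rw [indicator_of_notMem h, indicator_of_notMem h, zero_mul]

/-- the integral of `G` -/
theorem int_G (hn : 2 ≤ n) {δ : ℝ} (hδ : 0 < δ) (hδ1 : δ < 1) {e : E n} (he : ‖e‖ = 1) :
    ∫⁻ y, G δ e y ≤ ENNReal.ofReal (2 ^ (n - 2) * (2 ^ n * vb n * 7) * δ ^ (n - 1)) := by
  have hv := vb_pos n
  unfold G
  rw [lintegral_indicator (tube_meas _ _ _)]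
  have h1 : ∀ y ∈ tube δ 0 e, rr δ y ^ (n - 2) ≤ ENNReal.ofReal (2 ^ (n - 2)) := by
    intro y hy
    rw [ENNReal.ofReal_pow (by norm_num)]
    gcongr
    unfold rr
    apply ENNReal.ofReal_le_ofReal
    have := tube_norm hδ1 he hy
    rw [sub_zero] at this
    exact max_le this (by linarith)
  have h2 : volume (tube δ 0 e) ≤ ENNReal.ofReal (2 ^ n * vb n * 7 * δ ^ (n - 1)) := by
    have := vol_piece (n := n) (by omega) 0 he hδ one_pos
    rw [show 2 ^ n * vb n * 7 * δ ^ (n - 1) = 2 ^ n * vb n * 7 * (δ ^ (n - 1) * 1) by ring]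
    refine le_trans (measure_mono ?_) this
    intro y hy
    have h3 := tube_norm hδ1 he hy
    exact ⟨hy, by linarith⟩
  calc ∫⁻ y in tube δ 0 e, rr δ y ^ (n - 2) ≤ ∫⁻ _ in tube δ 0 e, ENNReal.ofReal (2 ^ (n - 2)) :=
        setLIntegral_mono measurable_const h1
    _ = ENNReal.ofReal (2 ^ (n - 2)) * volume (tube δ 0 e) := setLIntegral_const _ _
    _ ≤ ENNReal.ofReal (2 ^ (n - 2)) * ENNReal.ofReal (2 ^ n * vb n * 7 * δ ^ (n - 1)) := by gcongr
    _ = _ := by
        rw [← ENNReal.ofReal_mul (by positivity)]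
        congr 1; ring

/-- the majorant -/
noncomputable def Phi (δ : ℝ) (y : E n) : ℝ≥0∞ :=
  (closedBall (0 : E n) 2).indicator (fun y => ((rr δ y)⁻¹) ^ n) y

theorem Phi_meas (δ : ℝ) : Measurable (Phi δ : E n → ℝ≥0∞) :=
  ((rr_meas δ).inv.pow_const _).indicator isClosed_closedBall.measurableSet

theorem int_Phi {δ : ℝ} (hδ : 0 < δ) (hδ1 : δ < 1) : ∫⁻ y, (Phi δ y : ℝ≥0∞) ∂(volume : Measure (E n)) ≤
    ENNReal.ofReal (2 ^ n * (2 ^ n * vb n) * (2 * (1 + Real.log (1 / δ)))) := by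
  unfold Phi
  rw [lintegral_indicator isClosed_closedBall.measurableSet]
  exact int_ball hδ hδ1

theorem pt_bound (hn : 2 ≤ n) {δ : ℝ} (hδ : 0 < δ) {K : ℝ} {ι : Type} [Fintype ι]
    {e : ι → E n} (hB : ∀ y : E n, B δ e y ≤ (closedBall (0 : E n) 2).indicator
        (fun y => ENNReal.ofReal K * ((rr δ y)⁻¹) ^ (n - 1)) y) (y z : E n) :
    (B δ e y * rr δ y ^ (n - 2)) * B δ e z ≤ ENNReal.ofReal K ^ 2 * (Phi δ y + Phi δ z) := by
  by_cases hy : y ∈ closedBall (0 : E n) 2
  swap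
  · have h1 := hB y
    rw [indicator_of_notMem hy] at h1
    rw [le_antisymm h1 zero_le]
    simp
  by_cases hz : z ∈ closedBall (0 : E n) 2
  swap
  · have h1 := hB z
    rw [indicator_of_notMem hz] at h1
    rw [le_antisymm h1 zero_le]
    simp
  have h1 := hB y
  have h2 := hB z
  rw [indicator_of_mem hy] at h1
  rw [indicator_of_mem hz] at h2
  unfold Phi
  rw [indicator_of_mem hy, indicator_of_mem hz]
  set u := (rr δ y)⁻¹ with hu
  set v := (rr δ z)⁻¹ with hv
  obtain ⟨d, rfl⟩ : ∃ d, n = d + 2 := ⟨n - 2, by omega⟩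
  have e1 : d + 2 - 1 = d + 1 := by omega
  have e2 : d + 2 - 2 = d := by omega
  rw [e1] at h1 h2
  rw [e2]
  have h3 : u ^ d * rr δ y ^ d = 1 := by
    rw [← mul_pow, hu, ENNReal.inv_mul_cancel (rr_ne_zero hδ y) (rr_ne_top δ y), one_pow]
  have h4 : u * v ^ (d + 1) ≤ u ^ (d + 2) + v ^ (d + 2) := by
    rcases le_total u v with h | h
    · calc u * v ^ (d + 1) ≤ v * v ^ (d + 1) := by gcongr
        _ = v ^ (d + 2) := by ring
        _ ≤ _ := le_add_self
    · calc u * v ^ (d + 1) ≤ u * u ^ (d + 1) := by gcongr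
        _ = u ^ (d + 2) := by ring
        _ ≤ _ := le_self_add
  calc (B δ e y * rr δ y ^ d) * B δ e z ≤ (ENNReal.ofReal K * u ^ (d + 1) * rr δ y ^ d) *
        (ENNReal.ofReal K * v ^ (d + 1)) := by gcongr
    _ = ENNReal.ofReal K ^ 2 * (u * v ^ (d + 1)) * (u ^ d * rr δ y ^ d) := by ring
    _ = ENNReal.ofReal K ^ 2 * (u * v ^ (d + 1)) := by rw [h3, mul_one]
    _ ≤ _ := by gcongr

/-- **The mean of the weights.** -/
theorem mean_W (hn : 2 ≤ n) : ∃ C : ℝ, 1 ≤ C ∧ ∀ δ : ℝ, 0 < δ → δ < 1 →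
    ∀ (ι : Type) [Fintype ι] (e : ι → E n), (∀ i, ‖e i‖ = 1) → (∀ i j, i ≠ j → δ ≤ ‖e i - e j‖) →
    ∀ (Ω : Type) [MeasurableSpace Ω] (P : Measure Ω) [IsProbabilityMeasure P]
      (ν : Measure (E n)) [IsProbabilityMeasure ν] (A : ℝ), 1 ≤ A →
    ∀ (a : Ω → ι → E n), Pairwise' P ν (ENNReal.ofReal A) a →
      ∫⁻ ω, ∑ i, W δ (a ω) e i ∂P ≤ ENNReal.ofReal (C * A * (1 + Real.log (1 / δ))) := by
  classical
  obtain ⟨K, hK, hc⟩ := count_tube hn
  have hv := vb_pos n
  set c1 : ℝ := 2 ^ (n - 2) * (2 ^ n * vb n * 7) with hc1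
  have hc1p : 0 < c1 := by positivity
  set c2 : ℝ := 2 ^ n * (2 ^ n * vb n) * 2 with hc2
  have hc2p : 0 < c2 := by positivity
  refine ⟨1 + K * c1 + 2 * K ^ 2 * c2, by
    have : 0 < K * c1 := by positivity
    have : 0 < 2 * K ^ 2 * c2 := by positivity
    linarith, ?_⟩
  intro δ hδ hδ1 ι _ e he hsep Ω _ P _ ν _ A hA a ha
  obtain ⟨hcard, hB⟩ := hc δ hδ hδ1 ι e he hsep
  have hL : 1 ≤ 1 + Real.log (1 / δ) := by
    have : 0 ≤ Real.log (1 / δ) := Real.log_nonneg (by rw [le_div_iff₀ hδ]; linarith)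
    linarith
  set L := 1 + Real.log (1 / δ) with hLdef
  -- measurability
  have hGm : ∀ i, Measurable (fun z : Ω × E n => G δ (e i) (z.2 - a z.1 i)) := fun i =>
    (G_meas δ (e i)).comp (measurable_snd.sub ((ha.meas i).comp measurable_fst))
  have hHm : ∀ i, Measurable (fun z : Ω × E n => H δ (e i) (z.2 - a z.1 i)) := fun i =>
    (H_meas δ (e i)).comp (measurable_snd.sub ((ha.meas i).comp measurable_fst))
  -- expand
  have e1 : ∫⁻ ω, ∑ i, W δ (a ω) e i ∂P = ∑ i, ∑ j, ∫⁻ ω, ∫⁻ x,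
      G δ (e i) (x - a ω i) * H δ (e j) (x - a ω j) ∂volume ∂P := by
    have h1 : ∀ ω, ∑ i, W δ (a ω) e i = ∑ i, ∑ j, ∫⁻ x,
        G δ (e i) (x - a ω i) * H δ (e j) (x - a ω j) := by
      intro ω
      refine Finset.sum_congr rfl fun i _ => ?_
      rw [W_eq, lintegral_finsetSum]
      intro j _
      exact ((G_meas δ (e i)).comp (measurable_sub_const _)).mul
        ((H_meas δ (e j)).comp (measurable_sub_const _))
    simp only [h1]
    have h2 : ∀ i j, Measurable (fun ω => ∫⁻ x,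
        G δ (e i) (x - a ω i) * H δ (e j) (x - a ω j)) := fun i j =>
      ((hGm i).mul (hHm j)).lintegral_prod_right'
    rw [lintegral_finsetSum _ (fun i _ => Finset.measurable_fun_sum _ fun j _ => h2 i j)]
    refine Finset.sum_congr rfl fun i _ => ?_
    rw [lintegral_finsetSum _ (fun j _ => h2 i j)]
  rw [e1]
  -- means
  set gm : ι → E n → ℝ≥0∞ := fun i x => ∫⁻ b, G δ (e i) (x - b) ∂ν with hgm
  set hm : ι → E n → ℝ≥0∞ := fun j x => ∫⁻ b, H δ (e j) (x - b) ∂ν with hhm
  have hgmm : ∀ i, Measurable (gm i) := fun i => by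
    have : Measurable (fun z : E n × E n => G δ (e i) (z.1 - z.2)) :=
      (G_meas δ (e i)).comp (measurable_fst.sub measurable_snd)
    exact this.lintegral_prod_right'
  have hhmm : ∀ i, Measurable (hm i) := fun i => by
    have : Measurable (fun z : E n × E n => H δ (e i) (z.1 - z.2)) :=
      (H_meas δ (e i)).comp (measurable_fst.sub measurable_snd)
    exact this.lintegral_prod_right'
  have hterm : ∀ i j, ∫⁻ ω, ∫⁻ x, G δ (e i) (x - a ω i) * H δ (e j) (x - a ω j) ∂volume ∂P ≤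
      (if i = j then ENNReal.ofReal (c1 * δ ^ (n - 1)) else 0) +
        ENNReal.ofReal A * ∫⁻ x, gm i x * hm j x := by
    intro i j
    by_cases hij : i = j
    · subst hij
      rw [if_pos rfl]
      refine le_trans ?_ le_self_add
      calc ∫⁻ ω, ∫⁻ x, G δ (e i) (x - a ω i) * H δ (e i) (x - a ω i) ∂volume ∂P
          ≤ ∫⁻ ω, ∫⁻ x, G δ (e i) (x - a ω i) ∂volume ∂P := by
            refine lintegral_mono fun ω => lintegral_mono fun x => ?_
            calc _ ≤ G δ (e i) (x - a ω i) * 1 := by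
                  gcongr
                  exact H_le _ _ _
              _ = _ := mul_one _
        _ = ∫⁻ _, ∫⁻ y, G δ (e i) y ∂volume ∂P := by
            refine lintegral_congr fun ω => ?_
            exact lintegral_sub_right_eq_self (G δ (e i)) (a ω i)
        _ = ∫⁻ y, G δ (e i) y := by rw [lintegral_const, measure_univ, mul_one]
        _ ≤ _ := int_G hn hδ hδ1 (he i)
    · rw [if_neg hij, zero_add]
      have hsw : ∫⁻ ω, ∫⁻ x, G δ (e i) (x - a ω i) * H δ (e j) (x - a ω j) ∂volume ∂P =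
          ∫⁻ x, ∫⁻ ω, G δ (e i) (x - a ω i) * H δ (e j) (x - a ω j) ∂P := by
        apply lintegral_lintegral_swap
        exact ((hGm i).mul (hHm j)).aemeasurable
      rw [hsw, ← lintegral_const_mul' _ _ ENNReal.ofReal_ne_top]
      refine lintegral_mono fun x => ?_
      exact prod2 ha hij (g := fun b => G δ (e i) (x - b)) (k := fun b => H δ (e j) (x - b))
        ((G_meas δ (e i)).comp (measurable_const.sub measurable_id))
        ((H_meas δ (e j)).comp (measurable_const.sub measurable_id))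
  have hsum : ∑ i, ∑ j, ∫⁻ x, gm i x * hm j x =
      ∫⁻ x, (∫⁻ b, B δ e (x - b) * rr δ (x - b) ^ (n - 2) ∂ν) * ∫⁻ b, B δ e (x - b) ∂ν := by
    have h1 : ∀ x, (∫⁻ b, B δ e (x - b) * rr δ (x - b) ^ (n - 2) ∂ν) * ∫⁻ b, B δ e (x - b) ∂ν =
        ∑ i, ∑ j, gm i x * hm j x := by
      intro x
      have h2 : ∫⁻ b, B δ e (x - b) * rr δ (x - b) ^ (n - 2) ∂ν = ∑ i, gm i x := by
        rw [hgm, ← lintegral_finsetSum]
        · refine lintegral_congr fun b => ?_
          rw [← sum_G]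
        · intro i _
          exact (G_meas δ (e i)).comp (measurable_const.sub measurable_id)
      have h3 : ∫⁻ b, B δ e (x - b) ∂ν = ∑ i, hm i x := by
        rw [hhm, ← lintegral_finsetSum]
        · rfl
        · intro i _
          exact (H_meas δ (e i)).comp (measurable_const.sub measurable_id)
      rw [h2, h3, Finset.sum_mul_sum]
    simp only [h1]
    have hgh : ∀ i j, Measurable (fun x => gm i x * hm j x) := fun i j => (hgmm i).mul (hhmm j)
    rw [lintegral_finsetSum _ (fun i _ => Finset.measurable_fun_sum _ fun j _ => hgh i j)]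
    refine Finset.sum_congr rfl fun i _ => ?_
    rw [lintegral_finsetSum _ (fun j _ => hgh i j)]
  have hBm := B_meas δ e
  have hPhi : ∫⁻ x, ∫⁻ b, Phi δ (x - b) ∂ν = ∫⁻ y, (Phi δ y : ℝ≥0∞) ∂(volume : Measure (E n)) := by
    rw [lintegral_lintegral_swap]
    · calc ∫⁻ b, ∫⁻ x, Phi δ (x - b) ∂volume ∂ν =
          ∫⁻ _, ∫⁻ y, (Phi δ y : ℝ≥0∞) ∂(volume : Measure (E n)) ∂ν :=
            lintegral_congr fun b => lintegral_sub_right_eq_self (Phi δ) b
        _ = _ := by rw [lintegral_const, measure_univ, mul_one]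
    · exact ((Phi_meas δ).comp (measurable_fst.sub measurable_snd)).aemeasurable
  have hbig : ∫⁻ x, (∫⁻ b, B δ e (x - b) * rr δ (x - b) ^ (n - 2) ∂ν) * ∫⁻ b, B δ e (x - b) ∂ν ≤
      ENNReal.ofReal K ^ 2 * (2 * ∫⁻ y, (Phi δ y : ℝ≥0∞) ∂(volume : Measure (E n))) := by
    have hx : ∀ x, (∫⁻ b, B δ e (x - b) * rr δ (x - b) ^ (n - 2) ∂ν) * ∫⁻ b, B δ e (x - b) ∂ν ≤
        ENNReal.ofReal K ^ 2 * (2 * ∫⁻ b, Phi δ (x - b) ∂ν) := by
      intro x
      have hm1 : Measurable (fun b => B δ e (x - b)) := hBm.comp (measurable_const.sub measurable_id)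
      have hm2 : Measurable (fun b => rr δ (x - b)) :=
        (rr_meas δ).comp (measurable_const.sub measurable_id)
      have hm3 : Measurable (fun b => Phi δ (x - b)) :=
        (Phi_meas δ).comp (measurable_const.sub measurable_id)
      calc (∫⁻ b, B δ e (x - b) * rr δ (x - b) ^ (n - 2) ∂ν) * ∫⁻ b, B δ e (x - b) ∂ν
          = ∫⁻ b, ∫⁻ b', (B δ e (x - b) * rr δ (x - b) ^ (n - 2)) * B δ e (x - b') ∂ν ∂ν := by
            have hm4 : Measurable (fun b => B δ e (x - b) * rr δ (x - b) ^ (n - 2)) :=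
              hm1.mul (hm2.pow_const _)
            rw [← lintegral_mul_const _ hm4]
            refine lintegral_congr fun b => ?_
            rw [lintegral_const_mul _ hm1]
        _ ≤ ∫⁻ b, ∫⁻ b', ENNReal.ofReal K ^ 2 * (Phi δ (x - b) + Phi δ (x - b')) ∂ν ∂ν :=
            lintegral_mono fun b => lintegral_mono fun b' => pt_bound hn hδ hB _ _
        _ = ENNReal.ofReal K ^ 2 * (2 * ∫⁻ b, Phi δ (x - b) ∂ν) := by
            have h4 : ∀ b, ∫⁻ b', ENNReal.ofReal K ^ 2 * (Phi δ (x - b) + Phi δ (x - b')) ∂ν =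
                ENNReal.ofReal K ^ 2 * (Phi δ (x - b) + ∫⁻ b', Phi δ (x - b') ∂ν) := by
              intro b
              rw [lintegral_const_mul _ (hm3.const_add _), lintegral_add_left measurable_const,
                lintegral_const, measure_univ, mul_one]
            simp only [h4]
            rw [lintegral_const_mul _ (hm3.add_const _), lintegral_add_left hm3,
              lintegral_const, measure_univ, mul_one, two_mul]
    calc _ ≤ ∫⁻ x, ENNReal.ofReal K ^ 2 * (2 * ∫⁻ b, Phi δ (x - b) ∂ν) := lintegral_mono hx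
      _ = ENNReal.ofReal K ^ 2 * (2 * ∫⁻ x, ∫⁻ b, Phi δ (x - b) ∂ν) := by
          rw [lintegral_const_mul' _ _ (by finiteness), lintegral_const_mul' _ _ (by finiteness)]
      _ = _ := by rw [hPhi]
  have hK0 : 0 ≤ K := by linarith
  calc ∑ i, ∑ j, ∫⁻ ω, ∫⁻ x, G δ (e i) (x - a ω i) * H δ (e j) (x - a ω j) ∂volume ∂P
      ≤ ∑ i, ∑ j, ((if i = j then ENNReal.ofReal (c1 * δ ^ (n - 1)) else 0) +
        ENNReal.ofReal A * ∫⁻ x, gm i x * hm j x) :=
        Finset.sum_le_sum fun i _ => Finset.sum_le_sum fun j _ => hterm i j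
    _ = (Fintype.card ι : ℝ≥0∞) * ENNReal.ofReal (c1 * δ ^ (n - 1)) +
          ENNReal.ofReal A * ∑ i, ∑ j, ∫⁻ x, gm i x * hm j x := by
        simp only [Finset.sum_add_distrib, Finset.sum_ite_eq, Finset.mem_univ, if_true,
          ← Finset.mul_sum]
        rw [Finset.sum_const, Finset.card_univ, nsmul_eq_mul]
    _ ≤ ENNReal.ofReal (K * c1) + ENNReal.ofReal A * (ENNReal.ofReal K ^ 2 *
          (2 * ENNReal.ofReal (c2 * L))) := by
        gcongr
        · rw [← ENNReal.ofReal_natCast, ← ENNReal.ofReal_mul (by positivity)]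
          apply ENNReal.ofReal_le_ofReal
          calc (Fintype.card ι : ℝ) * (c1 * δ ^ (n - 1)) =
                c1 * ((Fintype.card ι : ℝ) * δ ^ (n - 1)) := by ring
            _ ≤ c1 * K := by gcongr
            _ = K * c1 := mul_comm _ _
        · rw [hsum]
          refine hbig.trans ?_
          gcongr
          refine (int_Phi hδ hδ1).trans (ENNReal.ofReal_le_ofReal (le_of_eq ?_))
          rw [hc2]; ring
    _ = ENNReal.ofReal (K * c1 + A * (K ^ 2 * (2 * (c2 * L)))) := by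
        rw [ENNReal.ofReal_add (by positivity) (by positivity), ENNReal.ofReal_mul (p := A)
          (by linarith), ENNReal.ofReal_mul (p := K ^ 2) (by positivity),
          ENNReal.ofReal_mul (p := 2) (by norm_num), ENNReal.ofReal_pow hK0,
          ENNReal.ofReal_ofNat]
    _ ≤ _ := by
        apply ENNReal.ofReal_le_ofReal
        have hAL : 1 ≤ A * L := by nlinarith
        have h1 : K * c1 ≤ K * c1 * (A * L) := by
          have : 0 < K * c1 := by positivity
          nlinarith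
        nlinarith

end Pool.Agent.Q184.RK
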